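import Mathlib
import Pool.Agent.H688.TS.FullF

/-!
# Complexity of transfer systems for cyclic groups of order `p ^ n * q ^ m`

For distinct primes `p`, `q` and all `n ≥ m ≥ 2`, the largest size of a minimal basis of a
transfer system of the cyclic group of order `p ^ n * q ^ m` is `F n m`.
-/

set_option autoImplicit false

open Pool.Agent.H688.TS

namespace Pool.Agent.Results.MP_0ca1b9_co.Full

theorem result (p q n m : ℕ) (hp : p.Prime) (hq : q.Prime) (hpq : p ≠ q) (hm : 2 ≤ m)
    (hmn : m ≤ n) (G : Type) [CommGroup G] [IsCyclic G] (hG : Nat.card G = p ^ n * q ^ m) :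
    IsGreatest (basisSizes G) (F n m) :=
  isGreatest_full hp hq hpq hG hm hmn

end Pool.Agent.Results.MP_0ca1b9_co.Full
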